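import Pool.Agent.Helper853.UM.Adm
import Pool.Agent.Helper853.UM.Upper

set_option autoImplicit false

open MeasureTheory Metric Set

namespace Pool.Agent.Results.MP_db50ff_an.CriticalOrder

/-- Surface measure on the unit sphere of `ℂⁿ` (a positive multiple of the normalised
rotation-invariant measure). -/
noncomputable def surf (n : ℕ) : Measure (sphere (0 : EuclideanSpace ℂ (Fin n)) 1) :=
  (volume : Measure (EuclideanSpace ℂ (Fin n))).toSphere

/-- `f` belongs to the ball algebra of the unit ball of `ℂⁿ`, is bounded by `1`, vanishes at `0`,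
and is unimodular on a subset of the unit sphere of positive surface measure. -/
def Admissible (n : ℕ) (f : EuclideanSpace ℂ (Fin n) → ℂ) : Prop :=
  ContinuousOn f (closedBall 0 1) ∧ DifferentiableOn ℂ f (ball 0 1) ∧
    (∀ z ∈ closedBall (0 : EuclideanSpace ℂ (Fin n)) 1, ‖f z‖ ≤ 1) ∧ f 0 = 0 ∧
    0 < surf n {ζ : sphere (0 : EuclideanSpace ℂ (Fin n)) 1 | ‖f ζ‖ = 1}

/-- `f` satisfies a Lipschitz condition of order `α` on the closed unit ball. -/
def LipOrder (n : ℕ) (α : ℝ) (f : EuclideanSpace ℂ (Fin n) → ℂ) : Prop :=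
  ∃ C : ℝ, ∀ z ∈ closedBall (0 : EuclideanSpace ℂ (Fin n)) 1,
    ∀ w ∈ closedBall (0 : EuclideanSpace ℂ (Fin n)) 1, ‖f z - f w‖ ≤ C * ‖z - w‖ ^ α

lemma surf_univ_ne (n : ℕ) (hn : 2 ≤ n) : surf n univ ≠ 0 := by
  have hne : Nonempty (Fin n) := ⟨⟨0, by omega⟩⟩
  have hnt : Nontrivial (EuclideanSpace ℂ (Fin n)) := by infer_instance
  unfold surf
  rw [Measure.toSphere_apply_univ]
  apply mul_ne_zero
  · have h4 : Module.finrank ℝ (EuclideanSpace ℂ (Fin n)) ≠ 0 := by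
      have : 0 < Module.finrank ℝ (EuclideanSpace ℂ (Fin n)) := Module.finrank_pos
      omega
    exact_mod_cast h4
  · exact (measure_ball_pos _ _ one_pos).ne'

instance (n : ℕ) : IsFiniteMeasure (surf n) := by unfold surf; infer_instance

/-- a Lipschitz condition of order `α` implies one of every smaller positive order -/
lemma lipOrder_mono {n : ℕ} {α β : ℝ} (hβ : 0 < β) (hβα : β ≤ α)
    {f : EuclideanSpace ℂ (Fin n) → ℂ} (h : LipOrder n α f) : LipOrder n β f := by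
  obtain ⟨C, hC⟩ := h
  refine ⟨|C| * 2 ^ (α - β), ?_⟩
  intro z hz w hw
  have hzw : ‖z - w‖ ≤ 2 := by
    rw [mem_closedBall_zero_iff] at hz hw
    calc ‖z - w‖ ≤ ‖z‖ + ‖w‖ := norm_sub_le _ _
      _ ≤ 2 := by linarith
  have h0 : 0 ≤ ‖z - w‖ := norm_nonneg _
  have hα : 0 < α := lt_of_lt_of_le hβ hβα
  have key : ‖z - w‖ ^ α ≤ 2 ^ (α - β) * ‖z - w‖ ^ β := by
    rcases h0.eq_or_lt with h | h
    · rw [← h, Real.zero_rpow hα.ne', Real.zero_rpow hβ.ne', mul_zero]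
    · have e : ‖z - w‖ ^ α = ‖z - w‖ ^ (α - β) * ‖z - w‖ ^ β := by
        rw [← Real.rpow_add h]; congr 1; ring
      rw [e]
      have : ‖z - w‖ ^ (α - β) ≤ 2 ^ (α - β) := Real.rpow_le_rpow h0 hzw (by linarith)
      have h2 : 0 ≤ ‖z - w‖ ^ β := Real.rpow_nonneg h0 _
      gcongr
  calc ‖f z - f w‖ ≤ C * ‖z - w‖ ^ α := hC z hz w hw
    _ ≤ |C| * ‖z - w‖ ^ α := mul_le_mul_of_nonneg_right (le_abs_self C) (Real.rpow_nonneg h0 _)
    _ ≤ |C| * (2 ^ (α - β) * ‖z - w‖ ^ β) := by gcongr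
    _ = _ := by ring

/-- For every `n ≥ 2` there is a critical order `αs` with `0 < αs ≤ 1/n`: admissible functions
satisfying a Lipschitz condition of order `α` exist for every `0 < α < αs` and do not exist for
`α > αs`, nor for `α ≥ 1/n`.  Moreover for some fixed positive order the unimodular set of an
admissible function can have measure arbitrarily close to full. -/
theorem result (n : ℕ) (hn : 2 ≤ n) :
    (∃ αs : ℝ, 0 < αs ∧ αs ≤ 1 / n ∧
      (∀ α : ℝ, 0 < α → α < αs → ∃ f, Admissible n f ∧ LipOrder n α f) ∧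
      (∀ α : ℝ, αs < α → ∀ f, Admissible n f → ¬ LipOrder n α f)) ∧
    (∀ α : ℝ, 1 / (n : ℝ) ≤ α → ∀ f, Admissible n f → ¬ LipOrder n α f) ∧
    (∃ α : ℝ, 0 < α ∧ ∀ ε : ℝ, 0 < ε → ∃ f, Admissible n f ∧ LipOrder n α f ∧
      (surf n).real {ζ : sphere (0 : EuclideanSpace ℂ (Fin n)) 1 | ‖f ζ‖ ≠ 1}
        ≤ ε * (surf n).real univ) := by
  have hne : Nonempty (Fin n) := ⟨⟨0, by omega⟩⟩
  have hnt : Nontrivial (EuclideanSpace ℂ (Fin n)) := by infer_instance
  have hn0 : (0 : ℝ) < n := by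
    have : 0 < n := by omega
    exact_mod_cast this
  -- nonexistence
  have hno : ∀ α : ℝ, 1 / (n : ℝ) ≤ α → ∀ f, Admissible n f → ¬ LipOrder n α f := by
    rintro α hα f ⟨hc, hd, hb, h0, hpos⟩ ⟨C, hC⟩
    exact Pool.Agent.Helper853.UM.no_lip n hn α hα f hc hd hb h0 hpos C hC
  -- existence
  have hex : ∃ α : ℝ, 0 < α ∧ ∀ ε : ℝ, 0 < ε → ∃ f, Admissible n f ∧ LipOrder n α f ∧
      (surf n).real {ζ : sphere (0 : EuclideanSpace ℂ (Fin n)) 1 | ‖f ζ‖ ≠ 1}
        ≤ ε * (surf n).real univ := by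
    obtain ⟨t, ht0, _, H⟩ := Pool.Agent.Helper853.UM.exists_adm (EuclideanSpace ℂ (Fin n))
    refine ⟨t, ht0, ?_⟩
    intro ε hε
    obtain ⟨f, hfc, hfd, ⟨C, _, hfL⟩, hf1, hf0, hfm⟩ := H (surf n) (min ε (1 / 2))
      (lt_min hε (by norm_num)) ((min_le_right _ _).trans (by norm_num))
    have huniv := surf_univ_ne n hn
    have hposr : 0 < (surf n).real univ := by
      rw [measureReal_def]
      exact ENNReal.toReal_pos huniv (measure_ne_top _ _)
    refine ⟨f, ⟨hfc, hfd, ?_, hf0, ?_⟩, ⟨C, ?_⟩, ?_⟩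
    · intro z hz
      rw [mem_closedBall_zero_iff] at hz
      exact hf1 z hz
    · rw [pos_iff_ne_zero]
      intro h0
      have hreal : (surf n).real {ζ : sphere (0 : EuclideanSpace ℂ (Fin n)) 1 | ‖f ζ‖ = 1} = 0 := by
        rw [measureReal_def, h0]; simp
      have hle : (surf n).real univ ≤
          (surf n).real {ζ : sphere (0 : EuclideanSpace ℂ (Fin n)) 1 | ‖f ζ‖ = 1}
          + (surf n).real {ζ : sphere (0 : EuclideanSpace ℂ (Fin n)) 1 | ‖f ζ‖ ≠ 1} := by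
        refine le_trans (measureReal_mono ?_ (measure_ne_top _ _)) (measureReal_union_le _ _)
        intro x _
        by_cases hx : ‖f x‖ = 1
        · left; exact hx
        · right; exact hx
      have h3 : min ε (1 / 2) * (surf n).real univ ≤ (1 / 2) * (surf n).real univ := by
        gcongr
        exact min_le_right _ _
      rw [hreal] at hle
      linarith
    · intro z hz w hw
      rw [mem_closedBall_zero_iff] at hz hw
      exact hfL z w hz hw
    · refine hfm.trans ?_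
      gcongr
      exact min_le_left _ _
  refine ⟨?_, hno, hex⟩
  obtain ⟨α₀, hα₀, H⟩ := hex
  obtain ⟨f₀, hf₀, hf₀L, _⟩ := H 1 one_pos
  set S : Set ℝ := {α | 0 < α ∧ ∃ f, Admissible n f ∧ LipOrder n α f} with hS
  have hSne : S.Nonempty := ⟨α₀, hα₀, f₀, hf₀, hf₀L⟩
  have hSb : ∀ α ∈ S, α ≤ 1 / n := by
    rintro α ⟨_, f, hf, hfL⟩
    by_contra hcon
    push Not at hcon
    exact hno α hcon.le f hf hfL
  have hbdd : BddAbove S := ⟨1 / n, hSb⟩
  refine ⟨sSup S, ?_, csSup_le hSne hSb, ?_, ?_⟩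
  · exact lt_of_lt_of_le hα₀ (le_csSup hbdd ⟨hα₀, f₀, hf₀, hf₀L⟩)
  · intro α hα hlt
    obtain ⟨β, ⟨_, f, hf, hfL⟩, hβ⟩ := exists_lt_of_lt_csSup hSne hlt
    exact ⟨f, hf, lipOrder_mono hα hβ.le hfL⟩
  · intro α hα f hf hfL
    have hα0 : 0 < α := by
      have : 0 < sSup S := lt_of_lt_of_le hα₀ (le_csSup hbdd ⟨hα₀, f₀, hf₀, hf₀L⟩)
      linarith
    have := le_csSup hbdd (⟨hα0, f, hf, hfL⟩ : α ∈ S)
    linarith

end Pool.Agent.Results.MP_db50ff_an.CriticalOrder
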